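import Mathlib

set_option autoImplicit false

namespace Pool.Agent.ECO

open Set Function Matroid Module

section lin

variable {E W k : Type*} [Field k] [AddCommGroup W] [Module k W] [Finite E]

/-- The matroid of linear independence of a finite family of vectors. -/
def linMat (k : Type*) {E W : Type*} [Field k] [AddCommGroup W] [Module k W] [Finite E]
    (x : E → W) : Matroid E :=
  (IndepMatroid.ofFinite (E := (univ : Set E)) (Set.toFinite _)
    (fun I => LinearIndepOn k x I) (linearIndepOn_empty k x)
    (fun _ _ hJ hIJ => hJ.mono hIJ)
    (by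
      intro I J hI hJ hlt
      by_contra hcon
      push Not at hcon
      have hsub : ∀ e ∈ J, x e ∈ Submodule.span k (x '' I) := by
        intro e he
        rw [hI.mem_span_iff]
        intro hins
        by_contra heI
        exact hcon e he heI hins
      have : Fintype I := Fintype.ofFinite _
      have : Fintype J := Fintype.ofFinite _
      have : FiniteDimensional k (Submodule.span k (x '' I)) :=
        FiniteDimensional.span_of_finite k ((Set.toFinite I).image x)
      have hJ' : LinearIndependent k (fun e : J => (⟨x e, hsub e e.2⟩ : Submodule.span k (x '' I))) := by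
        apply LinearIndependent.of_comp (Submodule.span k (x '' I)).subtype
        exact hJ
      have h1 := hJ'.fintype_card_le_finrank
      have h2 : finrank k (Submodule.span k (x '' I)) ≤ I.ncard := by
        have h3 : finrank k (Submodule.span k (x '' I)) = finrank k (Submodule.span k (range (fun e : I => x e))) := by
          rw [show x '' I = range (fun e : I => x e) by ext y; simp]
        rw [h3, Set.ncard_eq_toFinset_card', Set.toFinset_card]
        exact finrank_range_le_card (R := k) (fun e : I => x e)
      have h3 : J.ncard = Fintype.card J := by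
        rw [Set.ncard_eq_toFinset_card', Set.toFinset_card]
      omega)
    (fun _ _ => subset_univ _)).matroid

theorem linMat_E (x : E → W) : (linMat k x).E = univ := rfl

theorem linMat_indep (x : E → W) (I : Set E) : (linMat k x).Indep I ↔ LinearIndepOn k x I := Iff.rfl

theorem linMat_closure (x : E → W) (X : Set E) (e : E) :
    e ∈ (linMat k x).closure X ↔ x e ∈ Submodule.span k (x '' X) := by
  have hind : ∀ I, (linMat k x).Indep I → ∀ f, f ∈ (linMat k x).closure I ↔ x f ∈ Submodule.span k (x '' I) := by
    intro I hI f
    have hI' : LinearIndepOn k x I := hI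
    have h1 := hI.notMem_closure_iff (e := f) (mem_univ f)
    have h2 := hI'.notMem_span_iff (a := f)
    rw [← not_iff_not, h1, h2]
    exact Iff.rfl
  obtain ⟨I, hI⟩ := (linMat k x).exists_isBasis X (subset_univ _)
  rw [← hI.closure_eq_closure, hind I hI.indep e]
  have h3 : Submodule.span k (x '' I) = Submodule.span k (x '' X) := by
    apply le_antisymm
    · exact Submodule.span_mono (image_mono hI.subset)
    · rw [Submodule.span_le]
      rintro _ ⟨f, hf, rfl⟩
      exact (hind I hI.indep f).1 (hI.subset_closure hf)
  rw [h3]

theorem linMat_spanning (x : E → W) (X : Set E) :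
    (linMat k x).Spanning X ↔ ∀ e, x e ∈ Submodule.span k (x '' X) := by
  rw [spanning_iff_ground_subset_closure (subset_univ _)]
  constructor
  · intro h e
    exact (linMat_closure x X e).1 (h (mem_univ e))
  · intro h e _
    exact (linMat_closure x X e).2 (h e)

end lin

section graph

variable {V E : Type*}

/-- The set `F` of edges connects all vertices. -/
def Connects (ends : E → Sym2 V) (F : Set E) : Prop :=
  (SimpleGraph.fromEdgeSet (ends '' F)).Connected

/-- `F` is the edge set of a spanning tree: it connects all vertices and has one edge less than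
there are vertices. -/
def IsSpanningTree [Fintype V] (ends : E → Sym2 V) (F : Set E) : Prop :=
  Connects ends F ∧ F.ncard + 1 = Fintype.card V

variable [DecidableEq V]

/-- The vector of an edge over the field with two elements. -/
def vec : Sym2 V → (V → ZMod 2) :=
  Sym2.lift ⟨fun u v => Pi.single u 1 + Pi.single v 1, fun u v => add_comm _ _⟩

theorem vec_mk (u v : V) : vec s(u, v) = Pi.single u (1 : ZMod 2) + Pi.single v 1 := rfl

theorem vec_add (u v w : V) : vec s(u, w) = vec s(u, v) + vec s(v, w) := by
  rw [vec_mk, vec_mk, vec_mk]
  have : (Pi.single v (1 : ZMod 2) : V → ZMod 2) + Pi.single v 1 = 0 := by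
    ext y; simp only [Pi.add_apply, Pi.zero_apply]; exact CharTwo.add_self_eq_zero _
  calc (Pi.single u (1 : ZMod 2) : V → ZMod 2) + Pi.single w 1
      = Pi.single u 1 + 0 + Pi.single w 1 := by rw [add_zero]
    _ = Pi.single u 1 + (Pi.single v 1 + Pi.single v 1) + Pi.single w 1 := by rw [this]
    _ = _ := by abel

theorem vec_self (u : V) : vec s(u, u) = (0 : V → ZMod 2) := by
  rw [vec_mk]; ext y; simp only [Pi.add_apply, Pi.zero_apply]; exact CharTwo.add_self_eq_zero _

variable [Fintype V] [Finite E]

theorem span_of_connects (ends : E → Sym2 V) (F : Set E) (h : Connects ends F) (u v : V) :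
    vec s(u, v) ∈ Submodule.span (ZMod 2) ((fun e => vec (ends e)) '' F) := by
  obtain ⟨p⟩ := h.preconnected u v
  induction p with
  | nil => rw [vec_self]; exact Submodule.zero_mem _
  | cons hadj _ ih =>
    rw [SimpleGraph.fromEdgeSet_adj] at hadj
    obtain ⟨e, he, hee⟩ := hadj.1
    rw [vec_add _ _ _]
    refine Submodule.add_mem _ (Submodule.subset_span ⟨e, he, ?_⟩) ih
    change vec (ends e) = _
    rw [hee]

theorem connects_of_span [Nonempty V] (ends : E → Sym2 V) (F : Set E)
    (h : ∀ u v, vec s(u, v) ∈ Submodule.span (ZMod 2) ((fun e => vec (ends e)) '' F)) :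
    Connects ends F := by
  classical
  unfold Connects
  rw [SimpleGraph.connected_iff]
  refine ⟨fun u v => ?_, inferInstance⟩
  by_contra hnot
  set H := SimpleGraph.fromEdgeSet (ends '' F) with hH
  let L : (V → ZMod 2) →ₗ[ZMod 2] ZMod 2 :=
    { toFun := fun f => ∑ w ∈ Finset.univ.filter (fun w => H.Reachable u w), f w
      map_add' := fun f g => by simp [Finset.sum_add_distrib]
      map_smul' := fun c f => by simp [Finset.mul_sum] }
  have hL : ∀ a b, L (vec s(a, b)) = (if H.Reachable u a then 1 else 0) + (if H.Reachable u b then 1 else 0) := by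
    intro a b
    change ∑ w ∈ Finset.univ.filter (fun w => H.Reachable u w), vec s(a, b) w = _
    rw [vec_mk]
    simp only [Pi.add_apply, Finset.sum_add_distrib]
    congr 1
    · simp [Finset.sum_filter, Pi.single_apply]
    · simp [Finset.sum_filter, Pi.single_apply]
  have hker : Submodule.span (ZMod 2) ((fun e => vec (ends e)) '' F) ≤ LinearMap.ker L := by
    rw [Submodule.span_le]
    rintro _ ⟨e, he, rfl⟩
    change L (vec (ends e)) = 0
    induction hs : ends e using Sym2.inductionOn with
    | _ a b =>
      rw [hL]
      have hiff : H.Reachable u a ↔ H.Reachable u b := by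
        by_cases hab : a = b
        · rw [hab]
        · have hadj : H.Adj a b := by
            rw [hH, SimpleGraph.fromEdgeSet_adj]; exact ⟨⟨e, he, hs⟩, hab⟩
          exact ⟨fun hh => hh.trans hadj.reachable, fun hh => hh.trans hadj.symm.reachable⟩
      by_cases ha : H.Reachable u a
      · rw [if_pos ha, if_pos (hiff.1 ha)]; exact CharTwo.add_self_eq_zero _
      · rw [if_neg ha, if_neg (fun hb => ha (hiff.2 hb))]; simp
  have h1 := hker (h u v)
  rw [LinearMap.mem_ker, hL, if_pos (SimpleGraph.Reachable.refl u), if_neg hnot] at h1
  simp at h1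

/-- The cycle matroid of the multigraph. -/
noncomputable def graphMat (ends : E → Sym2 V) : Matroid E :=
  linMat (ZMod 2) (fun e => vec (ends e))

theorem graphMat_spanning [Nonempty V] (ends : E → Sym2 V) (T : Set E) (hT : Connects ends T) (X : Set E) :
    (graphMat ends).Spanning X ↔ Connects ends X := by
  rw [graphMat, linMat_spanning]
  constructor
  · intro h
    apply connects_of_span
    intro u v
    have h1 := span_of_connects ends T hT u v
    refine (Submodule.span_le.2 ?_) h1
    rintro _ ⟨e, _, rfl⟩
    exact h e
  · intro h e
    induction hs : ends e using Sym2.inductionOn with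
    | _ a b => exact span_of_connects ends X h a b

theorem card_le_of_connects (ends : E → Sym2 V) (Y : Set E) (h : Connects ends Y) :
    Fintype.card V ≤ Y.ncard + 1 := by
  classical
  have h1 := h.card_vert_le_card_edgeSet_add_one
  rw [Nat.card_eq_fintype_card] at h1
  have h2 : Nat.card (SimpleGraph.fromEdgeSet (ends '' Y)).edgeSet ≤ Y.ncard := by
    rw [SimpleGraph.edgeSet_fromEdgeSet, Nat.card_coe_set_eq]
    calc (ends '' Y \ {e | e.IsDiag}).ncard ≤ (ends '' Y).ncard :=
          Set.ncard_le_ncard sdiff_subset ((Set.toFinite Y).image _)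
      _ ≤ Y.ncard := Set.ncard_image_le (Set.toFinite Y)
  omega

theorem graphMat_isBase [Nonempty V] (ends : E → Sym2 V) (T : Set E) (hT : IsSpanningTree ends T) :
    (graphMat ends).IsBase T := by
  have hsp : (graphMat ends).Spanning T := (graphMat_spanning ends T hT.1 T).2 hT.1
  refine hsp.isBase_of_minimal (fun Y hY hYT => ?_)
  have hc : Connects ends Y := (graphMat_spanning ends T hT.1 Y).1 hY
  have h1 := card_le_of_connects ends Y hc
  have h2 := hT.2
  exact (Set.eq_of_subset_of_ncard_le hYT (by omega) (Set.toFinite T)).symm

theorem isSpanningTree_of_isBase [Nonempty V] (ends : E → Sym2 V) (T : Set E) (hT : IsSpanningTree ends T)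
    (X : Set E) (hX : (graphMat ends).IsBase X) : IsSpanningTree ends X := by
  refine ⟨(graphMat_spanning ends T hT.1 X).1 hX.spanning, ?_⟩
  rw [hX.ncard_eq_ncard_of_isBase (graphMat_isBase ends T hT)]
  exact hT.2

end graph

end Pool.Agent.ECO
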