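import Mathlib

set_option autoImplicit false

namespace Pool.Agent.ECO

open Set Function Matroid

variable {E : Type*}

/-- Triangular exchange. -/
theorem tri (N : Matroid E) (A B : Set E) (φ : E → E) (pr : E → ℕ) (hA : N.IsBase A)
    (hB : B ⊆ N.E) (hpr : Injective pr) (n : ℕ) :
    ∀ S : Set E, S.ncard = n → S.Finite → S ⊆ A → (∀ a ∈ S, φ a ∈ B) →
      (∀ a ∈ S, φ a ∉ N.closure (A \ {a})) →
      (∀ a ∈ S, ∀ b ∈ B, pr b < pr (φ a) → b ∈ N.closure (A \ {a})) →
      InjOn φ S → N.IsBase ((A \ S) ∪ φ '' S) := by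
  induction n with
  | zero =>
    intro S hn hf _ _ _ _ _
    rw [Set.ncard_eq_zero hf] at hn
    subst hn
    simpa using hA
  | succ n ih =>
    intro S hn hf hSA h1 h2 h3 hinj
    have hne : S.Nonempty := by
      rw [← Set.ncard_pos hf]; omega
    obtain ⟨a, haS, hmax⟩ := Set.exists_max_image S (fun a => pr (φ a)) hf hne
    have hS' : S \ {a} ⊆ S := sdiff_subset
    have hcard : (S \ {a}).ncard = n := by
      rw [Set.ncard_sdiff_singleton_of_mem haS]; omega
    have hB' := ih (S \ {a}) hcard (hf.subset hS') (hS'.trans hSA)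
      (fun x hx => h1 x (hS' hx)) (fun x hx => h2 x (hS' hx)) (fun x hx => h3 x (hS' hx))
      (hinj.mono hS')
    set X : Set E := (A \ S) ∪ φ '' (S \ {a}) with hX
    have haX : a ∉ X := by
      rintro (h | ⟨a', ha', h⟩)
      · exact h.2 haS
      · have hne' : a' ≠ a := ha'.2
        apply h2 a' (hS' ha')
        rw [h]
        exact N.mem_closure_of_mem' ⟨hSA haS, fun hh => hne' (by simpa using hh.symm)⟩
          (hA.subset_ground (hSA haS))
    have e1 : (A \ (S \ {a})) ∪ φ '' (S \ {a}) = insert a X := by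
      ext x
      simp only [hX, mem_union, mem_sdiff, mem_singleton_iff, mem_insert_iff, not_and, not_not]
      constructor
      · rintro (⟨hx, hh⟩ | hx)
        · by_cases hxS : x ∈ S
          · left; exact hh hxS
          · right; left; exact ⟨hx, hxS⟩
        · right; right; exact hx
      · rintro (hx | ⟨hx, hh⟩ | hx)
        · left; subst hx; exact ⟨hSA haS, fun _ => rfl⟩
        · left; exact ⟨hx, fun h => absurd h hh⟩
        · right; exact hx
    rw [e1] at hB'
    have hXind : N.Indep X := hB'.indep.subset (subset_insert _ _)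
    have hXcl : X ⊆ N.closure (A \ {a}) := by
      rintro x (h | ⟨a', ha', rfl⟩)
      · exact N.mem_closure_of_mem' ⟨h.1, fun hh => h.2 (by rw [mem_singleton_iff] at hh; rw [hh]; exact haS)⟩
          (hA.subset_ground h.1)
      · apply h3 a haS _ (h1 a' (hS' ha'))
        refine lt_of_le_of_ne (hmax a' (hS' ha')) ?_
        intro heq
        exact ha'.2 (hinj (hS' ha') haS (hpr heq))
    have hnot : φ a ∉ N.closure X := fun hh =>
      h2 a haS (N.closure_subset_closure_of_subset_closure hXcl hh)
    have hE : φ a ∈ N.E := hB (h1 a haS)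
    have hins : N.Indep (insert (φ a) X) := ((hXind.notMem_closure_iff hE).1 hnot).1
    have hnX : φ a ∉ X := ((hXind.notMem_closure_iff hE).1 hnot).2
    have hbase := insert_isBase_of_insert_indep haX hnX hB' hins
    have e2 : (A \ S) ∪ φ '' S = insert (φ a) X := by
      have : S = insert a (S \ {a}) := by
        ext x; by_cases hx : x = a
        · subst hx; simp [haS]
        · simp [hx]
      conv_lhs => rw [show φ '' S = insert (φ a) (φ '' (S \ {a})) by
        conv_lhs => rw [this, image_insert_eq]]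
      rw [union_insert]
    rw [e2]; exact hbase

/-- The first element of `B` that can replace `a`. -/
theorem exphi (N : Matroid E) (A B : Set E) (pr : E → ℕ) (hA : N.IsBase A) (hB : N.IsBase B)
    (hBf : B.Finite) (a : E) (ha : a ∈ A) :
    ∃ b ∈ B, b ∉ N.closure (A \ {a}) ∧
      ∀ b' ∈ B, pr b' < pr b → b' ∈ N.closure (A \ {a}) := by
  have hne : {b | b ∈ B ∧ b ∉ N.closure (A \ {a})}.Nonempty := by
    by_contra hcon
    rw [Set.not_nonempty_iff_eq_empty] at hcon
    have hsub : B ⊆ N.closure (A \ {a}) := by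
      intro b hb
      by_contra hh
      have : b ∈ {b | b ∈ B ∧ b ∉ N.closure (A \ {a})} := ⟨hb, hh⟩
      rw [hcon] at this
      exact this
    have h1 : N.closure B ⊆ N.closure (A \ {a}) := N.closure_subset_closure_of_subset_closure hsub
    rw [hB.closure_eq] at h1
    exact hA.indep.notMem_closure_sdiff_of_mem ha (h1 (hA.subset_ground ha))
  obtain ⟨b, hb, hmin⟩ := Set.exists_min_image _ pr (hBf.subset (fun x hx => hx.1)) hne
  refine ⟨b, hb.1, hb.2, fun b' hb' hlt => ?_⟩
  by_contra hh
  exact absurd (hmin b' ⟨hb', hh⟩) (not_le.2 hlt)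

end Pool.Agent.ECO
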