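import Pool.Agent.helper58.ECO.M
import Pool.Agent.helper58.ECO.G

set_option autoImplicit false

namespace Pool.Agent.ECO

open Set Function Matroid

variable {V E : Type*} [Fintype V] [Finite E]

theorem final (ends : E → Sym2 V) (hV : 2 ≤ Fintype.card V) (K : ℕ) (hK : 1 ≤ K)
    (T : Fin K → Set E) (hT : ∀ i, IsSpanningTree ends (T i))
    (hdis : ∀ i j, i ≠ j → Disjoint (T i) (T j)) :
    ∃ e : ℕ → E,
      (∀ j, e (j + K * (Fintype.card V - 1)) = e j) ∧
      BijOn e (Iio (K * (Fintype.card V - 1))) (⋃ i, T i) ∧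
      (∀ (i : Fin K) (q : ℕ), q < Fintype.card V - 1 →
        e (i * (Fintype.card V - 1) + q) ∈ T i) ∧
      (∀ j, j ≤ (K - 1) * (Fintype.card V - 1) →
        IsSpanningTree ends (e '' Ico j (j + (Fintype.card V - 1)))) ∧
      (∀ j, Connects ends (e '' Ico j (j + Fintype.card V))) := by
  classical
  haveI : NeZero K := ⟨by omega⟩
  haveI : Nonempty V := Fintype.card_pos_iff.1 (by omega)
  set m := Fintype.card V - 1 with hm
  have hm0 : 0 < m := by omega
  have hn : Fintype.card V = m + 1 := by omega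
  let i0 : Fin K := ⟨0, by omega⟩
  set A : Set E := ⋃ i, T i with hA
  have hAf : A.Finite := Set.toFinite A
  -- colours
  have hex : ∀ x, ∃ c : ZMod K, ∀ i : Fin K, x ∈ T i → c = (i.val : ZMod K) := by
    intro x
    by_cases h : ∃ i, x ∈ T i
    · obtain ⟨i, hi⟩ := h
      refine ⟨(i.val : ZMod K), fun j hj => ?_⟩
      by_cases hij : i = j
      · rw [hij]
      · exact absurd hj (Set.disjoint_left.1 (hdis i j hij) hi)
    · exact ⟨0, fun i hi => absurd ⟨i, hi⟩ h⟩
  choose t ht using hex
  have hcastinj : ∀ i j : Fin K, (i.val : ZMod K) = (j.val : ZMod K) → i = j := by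
    intro i j h
    have := (ZMod.natCast_eq_natCast_iff' i.val j.val K).1 h
    rw [Nat.mod_eq_of_lt i.2, Nat.mod_eq_of_lt j.2] at this
    exact Fin.ext this
  have hcls : ∀ i : Fin K, cls A t (i.val : ZMod K) = T i := by
    intro i
    ext x
    constructor
    · rintro ⟨hx, hc⟩
      obtain ⟨j, hj⟩ := Set.mem_iUnion.1 hx
      have := ht x j hj
      rw [hc] at this
      rw [hcastinj _ _ this]; exact hj
    · intro hx
      exact ⟨Set.mem_iUnion.2 ⟨i, hx⟩, ht x i hx⟩
  have hcol : ∀ c : ZMod K, ∃ i : Fin K, (i.val : ZMod K) = c := fun c =>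
    ⟨⟨c.val, ZMod.val_lt c⟩, by simp⟩
  have hbase : ∀ c : ZMod K, (graphMat ends).IsBase (cls A t c) := by
    intro c
    obtain ⟨i, hi⟩ := hcol c
    rw [← hi, hcls]
    exact graphMat_isBase ends _ (hT i)
  obtain ⟨ι, hι⟩ := Finite.exists_equiv_fin E |>.imp fun n h => h
  obtain ⟨o, m', hb, hw, hl⟩ := main t (fun x => (hι.some x).val)
    (fun x y h => hι.some.injective (Fin.ext h)) A.ncard A (fun _ => graphMat ends) hAf rfl
    (fun i => hbase i) (fun i => hbase (i + 1))
  have hmm : m' = m := by
    have h1 : (cls A t (i0.val : ZMod K)).ncard = m' := by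
      have h2 := (hb (i0.val : ZMod K)).image_eq
      rw [← Set.ncard_image_of_injOn (hb (i0.val : ZMod K)).injOn, h2]
      simp [Set.ncard_eq_toFinset_card']
    rw [hcls] at h1
    have := (hT i0).2
    omega
  subst hmm
  -- the sequence
  have hg : ∀ (c : ZMod K) (q : ℕ), ∃ x, q < m → (x ∈ cls A t c ∧ o x = q) := by
    intro c q
    by_cases hq : q < m
    · obtain ⟨x, hx, hxq⟩ := (hb c).surjOn (show q ∈ Iio m from hq)
      exact ⟨x, fun _ => ⟨hx, hxq⟩⟩
    · obtain ⟨x, -, -⟩ := (hb c).surjOn (show 0 ∈ Iio m from hm0)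
      exact ⟨x, fun h => absurd h hq⟩
  choose g hg using hg
  have hguniq : ∀ c q x, x ∈ cls A t c → o x = q → g c q = x := by
    intro c q x hx hxq
    have hq : q < m := by
      have := (hb c).mapsTo hx
      rw [mem_Iio, hxq] at this; exact this
    exact (hb c).injOn (hg c q hq).1 hx (by rw [(hg c q hq).2, hxq])
  set e : ℕ → E := fun j => g ((j / m : ℕ) : ZMod K) (j % m) with he
  have hev : ∀ a q, q < m → e (a * m + q) = g (a : ZMod K) q := by
    intro a q hq
    have h1 : (a * m + q) / m = a := by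
      rw [mul_comm, Nat.mul_add_div hm0, Nat.div_eq_of_lt hq, add_zero]
    have h2 : (a * m + q) % m = q := by
      rw [mul_comm, Nat.mul_add_mod, Nat.mod_eq_of_lt hq]
    simp only [he, h1, h2]
  have hdec : ∀ j, ∃ a q, q < m ∧ j = a * m + q := fun j =>
    ⟨j / m, j % m, Nat.mod_lt _ hm0, by rw [mul_comm]; exact (Nat.div_add_mod j m).symm⟩
  -- windows
  have hwin : ∀ a q, q < m → e '' Ico (a * m + q) (a * m + q + m) = win A t o (a : ZMod K) q := by
    intro a q hq
    ext x
    constructor
    · rintro ⟨y, ⟨hy1, hy2⟩, rfl⟩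
      rcases Nat.lt_or_ge y (a * m + m) with h | h
      · have h1 : y = a * m + (y - a * m) := by omega
        have h2 : y - a * m < m := by omega
        rw [h1, hev a _ h2]
        left
        exact ⟨(hg _ _ h2).1, by rw [(hg _ _ h2).2]; omega⟩
      · have h1 : y = (a + 1) * m + (y - (a * m + m)) := by rw [add_mul, one_mul]; omega
        have h2 : y - (a * m + m) < m := by omega
        rw [h1, hev (a + 1) _ h2]
        right
        refine ⟨?_, by rw [(hg _ _ h2).2]; omega⟩
        have := (hg ((a + 1 : ℕ) : ZMod K) _ h2).1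
        push_cast at this ⊢
        exact this
    · rintro (⟨hx, hq'⟩ | ⟨hx, hq'⟩)
      · have hlt : o x < m := (hb _).mapsTo hx
        refine ⟨a * m + o x, ⟨by omega, by omega⟩, ?_⟩
        rw [hev a _ hlt]; exact hguniq _ _ _ hx rfl
      · have hlt : o x < m := (hb _).mapsTo hx
        refine ⟨(a + 1) * m + o x, ⟨by rw [add_mul, one_mul]; omega, by rw [add_mul, one_mul]; omega⟩, ?_⟩
        rw [hev (a + 1) _ hlt]
        apply hguniq _ _ _ _ rfl
        push_cast; exact hx
  have hwinp : ∀ a q, q < m → e '' Ico (a * m + q) (a * m + q + (m + 1)) = winp A t o (a : ZMod K) q := by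
    intro a q hq
    ext x
    constructor
    · rintro ⟨y, ⟨hy1, hy2⟩, rfl⟩
      rcases Nat.lt_or_ge y (a * m + m) with h | h
      · have h1 : y = a * m + (y - a * m) := by omega
        have h2 : y - a * m < m := by omega
        rw [h1, hev a _ h2]
        left
        exact ⟨(hg _ _ h2).1, by rw [(hg _ _ h2).2]; omega⟩
      · have h1 : y = (a + 1) * m + (y - (a * m + m)) := by rw [add_mul, one_mul]; omega
        have h2 : y - (a * m + m) < m := by omega
        rw [h1, hev (a + 1) _ h2]
        right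
        refine ⟨?_, by rw [(hg _ _ h2).2]; omega⟩
        have := (hg ((a + 1 : ℕ) : ZMod K) _ h2).1
        push_cast at this ⊢
        exact this
    · rintro (⟨hx, hq'⟩ | ⟨hx, hq'⟩)
      · have hlt : o x < m := (hb _).mapsTo hx
        refine ⟨a * m + o x, ⟨by omega, by omega⟩, ?_⟩
        rw [hev a _ hlt]; exact hguniq _ _ _ hx rfl
      · have hlt : o x < m := (hb _).mapsTo hx
        refine ⟨(a + 1) * m + o x, ⟨by rw [add_mul, one_mul]; omega, by rw [add_mul, one_mul]; omega⟩, ?_⟩
        rw [hev (a + 1) _ hlt]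
        apply hguniq _ _ _ _ rfl
        push_cast; exact hx
  refine ⟨e, ?_, ?_, ?_, ?_, ?_⟩
  · intro j
    obtain ⟨a, q, hq, rfl⟩ := hdec j
    rw [show a * m + q + K * m = (a + K) * m + q by ring, hev _ _ hq, hev _ _ hq]
    congr 1
    push_cast; rw [ZMod.natCast_self, add_zero]
  · refine ⟨?_, ?_, ?_⟩
    · intro j hj
      obtain ⟨a, q, hq, rfl⟩ := hdec j
      rw [hev _ _ hq]
      exact (hg _ _ hq).1.1
    · intro j hj j' hj' heq
      obtain ⟨a, q, hq, rfl⟩ := hdec j
      obtain ⟨a', q', hq', rfl⟩ := hdec j'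
      rw [mem_Iio] at hj hj'
      have haK : a < K := by
        by_contra h
        have : K * m ≤ a * m := Nat.mul_le_mul_right m (by omega)
        omega
      have haK' : a' < K := by
        by_contra h
        have : K * m ≤ a' * m := Nat.mul_le_mul_right m (by omega)
        omega
      rw [hev _ _ hq, hev _ _ hq'] at heq
      have h1 := hg (a : ZMod K) q hq
      have h2 := hg (a' : ZMod K) q' hq'
      rw [heq] at h1
      have h3 : (a : ZMod K) = (a' : ZMod K) := h1.1.2.symm.trans h2.1.2
      have h4 := hcastinj ⟨a, haK⟩ ⟨a', haK'⟩ h3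
      have h5 : a = a' := congrArg Fin.val h4
      have h6 : q = q' := h1.2.symm.trans h2.2
      rw [h5, h6]
    · intro x hx
      obtain ⟨i, hi⟩ := Set.mem_iUnion.1 hx
      rw [← hcls i] at hi
      have hlt : o x < m := (hb _).mapsTo hi
      refine ⟨i.val * m + o x, ?_, ?_⟩
      · rw [mem_Iio]
        have h1 : (i.val + 1) * m ≤ K * m := Nat.mul_le_mul_right m i.2
        rw [add_mul, one_mul] at h1
        omega
      · rw [hev _ _ hlt]; exact hguniq _ _ _ hi rfl
  · intro i q hq
    rw [hev _ _ hq, ← hcls i]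
    exact (hg _ _ hq).1
  · intro j hj
    obtain ⟨a, q, hq, rfl⟩ := hdec j
    rw [hwin a q hq]
    apply isSpanningTree_of_isBase ends (T i0) (hT i0)
    have haK : a ≤ K - 1 := by
      by_contra h
      have : ((K - 1) + 1) * m ≤ a * m := Nat.mul_le_mul_right m (by omega)
      rw [add_mul, one_mul] at this
      omega
    rcases Nat.lt_or_ge a (K - 1) with h | h
    · apply hw _ _ _ hq.le
      intro hcon
      have h1 : ((a + 1 : ℕ) : ZMod K) = 0 := by push_cast; rw [hcon]; ring
      rw [ZMod.natCast_eq_zero_iff] at h1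
      have := Nat.le_of_dvd (by omega) h1
      omega
    · have ha : a = K - 1 := by omega
      have hq0 : q = 0 := by rw [ha] at hj; omega
      rw [hq0]
      have : win A t o (a : ZMod K) 0 = cls A t (a : ZMod K) := by
        ext x; simp [win]
      rw [this]; exact hbase _
  · intro j
    obtain ⟨a, q, hq, rfl⟩ := hdec j
    rw [hn, hwinp a q hq, ← graphMat_spanning ends (T i0) (hT i0).1]
    by_cases hc : (a : ZMod K) = -1
    · rw [hc]; exact hl q hq
    · refine (hw _ hc q hq.le).spanning.superset ?_ (subset_univ _)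
      rintro x (hx | hx)
      · exact Or.inl hx
      · exact Or.inr ⟨hx.1, hx.2.le⟩

end Pool.Agent.ECO
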