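import Pool.Agent.helper58.ECO.O

set_option autoImplicit false

namespace Pool.Agent.ECO

open Set Function Matroid

variable {E : Type*} {K : ℕ} [NeZero K]

/-- The window starting at position `j` of the block of colour `i`. -/
def win (A : Set E) (t : E → ZMod K) (o : E → ℕ) (i : ZMod K) (j : ℕ) : Set E :=
  {e | e ∈ cls A t i ∧ j ≤ o e} ∪ {e | e ∈ cls A t (i + 1) ∧ o e < j}

/-- The window with one more element. -/
def winp (A : Set E) (t : E → ZMod K) (o : E → ℕ) (i : ZMod K) (j : ℕ) : Set E :=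
  {e | e ∈ cls A t i ∧ j ≤ o e} ∪ {e | e ∈ cls A t (i + 1) ∧ o e ≤ j}

omit [NeZero K] in
theorem winp_sub (A : Set E) (t : E → ZMod K) (o : E → ℕ) (i : ZMod K) (j : ℕ) :
    winp A t o i j ⊆ cls A t i ∪ cls A t (i + 1) := by
  rintro e (h | h)
  · left; exact h.1
  · right; exact h.1

theorem main (t : E → ZMod K) (pr : E → ℕ) (hpr : Injective pr) (n : ℕ) :
    ∀ (A : Set E) (N : ZMod K → Matroid E), A.Finite → A.ncard = n →
      (∀ i, (N i).IsBase (cls A t i)) → (∀ i, (N i).IsBase (cls A t (i + 1))) →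
      ∃ (o : E → ℕ) (m : ℕ), (∀ i, BijOn o (cls A t i) (Iio m)) ∧
        (∀ i : ZMod K, i ≠ -1 → ∀ j ≤ m, (N i).IsBase (win A t o i j)) ∧
        (∀ j < m, (N (-1)).Spanning (winp A t o (-1) j)) := by
  induction n using Nat.strong_induction_on with
  | _ n ih =>
  intro A N hAf hn h1 h2
  rcases Set.eq_empty_or_nonempty A with hem | hne
  · subst hem
    have hc : ∀ i, cls (∅ : Set E) t i = ∅ := fun i => by ext x; simp [cls]
    refine ⟨fun _ => 0, 0, fun i => ?_, fun i _ j _ => ?_, fun j hj => absurd hj (Nat.not_lt_zero j)⟩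
    · rw [hc, show (Iio 0 : Set ℕ) = ∅ by ext x; simp]; exact bijOn_empty _
    · have : win (∅ : Set E) t (fun _ => 0) i j = ∅ := by ext x; simp [win, hc]
      rw [this, ← hc i]; exact h1 i
  -- the map
  have hex : ∀ e ∈ A, ∃ b ∈ cls A t (t e + 1), b ∉ (N (t e)).closure (cls A t (t e) \ {e}) ∧
      ∀ b' ∈ cls A t (t e + 1), pr b' < pr b → b' ∈ (N (t e)).closure (cls A t (t e) \ {e}) :=
    fun e he => exphi (N (t e)) _ _ pr (h1 _) (h2 _) (hAf.subset (cls_sub _ _ _)) e ⟨he, rfl⟩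
  have hex' : ∀ e, ∃ b, e ∈ A → (b ∈ cls A t (t e + 1) ∧
      b ∉ (N (t e)).closure (cls A t (t e) \ {e}) ∧
      ∀ b' ∈ cls A t (t e + 1), pr b' < pr b → b' ∈ (N (t e)).closure (cls A t (t e) \ {e})) := by
    intro e
    by_cases he : e ∈ A
    · obtain ⟨b, hb⟩ := hex e he; exact ⟨b, fun _ => hb⟩
    · exact ⟨e, fun h => absurd h he⟩
  choose φ hφ using hex'
  obtain ⟨O, p, d, hOne, hOA, hOinj, hp, hs1, hs2, hs3⟩ := orbit A t φ hAf hne
    (fun e he => (hφ e he).1.1) (fun e he => (hφ e he).1.2)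
  have hOf : O.Finite := hAf.subset hOA
  -- exchange along the orbit
  have hexch : ∀ i, ∀ S ⊆ cls O t i, (N i).IsBase ((cls A t i \ S) ∪ φ '' S) := by
    intro i S hS
    have hSO : S ⊆ O := hS.trans (cls_sub _ _ _)
    have hSt : ∀ a ∈ S, t a = i := fun a ha => (hS ha).2
    refine tri (N i) (cls A t i) (cls A t (i + 1)) φ pr (h1 i) (h2 i).subset_ground hpr _ S rfl
      (hOf.subset hSO) (fun a ha => ⟨hOA (hSO ha), hSt a ha⟩) ?_ ?_ ?_ (hOinj.mono hSO)
    · intro a ha
      have := (hφ a (hOA (hSO ha))).1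
      rwa [hSt a ha] at this
    · intro a ha
      have := (hφ a (hOA (hSO ha))).2.1
      rwa [hSt a ha] at this
    · intro a ha b hb hlt
      have := (hφ a (hOA (hSO ha))).2.2
      rw [hSt a ha] at this
      exact this b hb hlt
  have hbO : ∀ i, (N i).IsBase ((cls A t i \ cls O t i) ∪ cls O t (i + 1)) := by
    intro i
    have := hexch i (cls O t i) (Subset.refl _)
    rwa [hs3 i] at this
  have hOind : ∀ i, (N i).Indep (cls O t (i + 1)) := fun i => (hbO i).indep.subset subset_union_right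
  -- the rest
  have hcls : ∀ i, cls (A \ O) t i = cls A t i \ cls O t i := by
    intro i; ext e
    simp only [cls, mem_ofPred_eq, mem_sdiff, not_and]
    constructor
    · rintro ⟨⟨ha, hO⟩, ht⟩; exact ⟨⟨ha, ht⟩, fun h => absurd h hO⟩
    · rintro ⟨⟨ha, ht⟩, h⟩; exact ⟨⟨ha, fun hO => h hO ht⟩, ht⟩
  have hdisj : ∀ i j, Disjoint (cls (A \ O) t i) (cls O t j) := by
    intro i j
    rw [Set.disjoint_left]
    rintro e ⟨⟨-, he⟩, -⟩ ⟨he', -⟩
    exact he he'
  have hlt : (A \ O).ncard < n := by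
    rw [← hn]
    apply Set.ncard_lt_ncard _ hAf
    refine ⟨sdiff_subset, fun hsub => ?_⟩
    obtain ⟨x, hx⟩ := hOne
    exact (hsub (hOA hx)).2 hx
  obtain ⟨o', m', hb', hw', hl'⟩ := ih _ hlt (A \ O) (fun i => N i ／ cls O t (i + 1))
    (hAf.subset sdiff_subset) rfl
    (fun i => by
      rw [(hOind i).contract_isBase_iff]
      exact ⟨by rw [hcls]; exact hbO i, hdisj _ _⟩)
    (fun i => by
      rw [(hOind i).contract_isBase_iff]
      refine ⟨?_, hdisj _ _⟩
      have : cls (A \ O) t (i + 1) ∪ cls O t (i + 1) = cls A t (i + 1) := by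
        rw [hcls]; apply sdiff_union_of_subset
        intro e he; exact ⟨hOA he.1, he.2⟩
      rw [this]; exact h2 i)
  -- positions
  classical
  set o : E → ℕ := fun e => if e ∈ O then p e else d + o' e with ho
  have hoO : ∀ e ∈ O, o e = p e := fun e he => by simp [ho, he]
  have hoR : ∀ e, e ∉ O → o e = d + o' e := fun e he => by simp [ho, he]
  have hpd : ∀ e ∈ O, p e < d := fun e he => (hp (t e)).mapsTo ⟨he, rfl⟩
  have hO'd : ∀ e ∈ A \ O, o' e < m' := fun e he => (hb' (t e)).mapsTo ⟨he, rfl⟩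
  refine ⟨o, d + m', ?_, ?_, ?_⟩
  · intro i
    refine ⟨?_, ?_, ?_⟩
    · rintro e ⟨he, hte⟩
      by_cases heO : e ∈ O
      · rw [mem_Iio, hoO e heO]; have := hpd e heO; omega
      · rw [mem_Iio, hoR e heO]; have := hO'd e ⟨he, heO⟩; omega
    · rintro e ⟨he, hte⟩ e' ⟨he', hte'⟩ heq
      by_cases heO : e ∈ O
      · by_cases heO' : e' ∈ O
        · rw [hoO e heO, hoO e' heO'] at heq
          exact (hp i).injOn ⟨heO, hte⟩ ⟨heO', hte'⟩ heq
        · rw [hoO e heO, hoR e' heO'] at heq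
          have := hpd e heO; omega
      · by_cases heO' : e' ∈ O
        · rw [hoR e heO, hoO e' heO'] at heq
          have := hpd e' heO'; omega
        · rw [hoR e heO, hoR e' heO'] at heq
          exact (hb' i).injOn ⟨⟨he, heO⟩, hte⟩ ⟨⟨he', heO'⟩, hte'⟩ (by omega)
    · intro q hq
      rw [mem_Iio] at hq
      rcases Nat.lt_or_ge q d with h | h
      · obtain ⟨e, ⟨he, hte⟩, hpe⟩ := (hp i).surjOn (show q ∈ Iio d from h)
        exact ⟨e, ⟨hOA he, hte⟩, by rw [hoO e he, hpe]⟩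
      · obtain ⟨e, ⟨he, hte⟩, hpe⟩ := (hb' i).surjOn (show q - d ∈ Iio m' from by rw [mem_Iio]; omega)
        exact ⟨e, ⟨he.1, hte⟩, by rw [hoR e he.2, hpe]; omega⟩
  · intro i hi j hj
    rcases Nat.lt_or_ge d j with hdj | hdj
    · -- j > d
      have hw := hw' i hi (j - d) (by omega)
      rw [(hOind i).contract_isBase_iff] at hw
      have : win A t o i j = win (A \ O) t o' i (j - d) ∪ cls O t (i + 1) := by
        ext e
        simp only [win, mem_union, mem_ofPred_eq]
        constructor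
        · rintro (⟨⟨he, hte⟩, hlt'⟩ | ⟨⟨he, hte⟩, hlt'⟩)
          · by_cases heO : e ∈ O
            · rw [hoO e heO] at hlt'; have := hpd e heO; omega
            · rw [hoR e heO] at hlt'
              exact Or.inl (Or.inl ⟨⟨⟨he, heO⟩, hte⟩, by omega⟩)
          · by_cases heO : e ∈ O
            · exact Or.inr ⟨heO, hte⟩
            · rw [hoR e heO] at hlt'
              exact Or.inl (Or.inr ⟨⟨⟨he, heO⟩, hte⟩, by omega⟩)
        · rintro ((⟨⟨he, hte⟩, hlt'⟩ | ⟨⟨he, hte⟩, hlt'⟩) | ⟨he, hte⟩)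
          · exact Or.inl ⟨⟨he.1, hte⟩, by rw [hoR e he.2]; omega⟩
          · exact Or.inr ⟨⟨he.1, hte⟩, by rw [hoR e he.2]; omega⟩
          · exact Or.inr ⟨⟨hOA he, hte⟩, by rw [hoO e he]; have := hpd e he; omega⟩
      rw [this]; exact hw.1
    · -- j ≤ d
      have hw := hexch i {e | e ∈ cls O t i ∧ p e < j} (fun e he => he.1)
      rw [hs1 i hi j] at hw
      have : win A t o i j = (cls A t i \ {e | e ∈ cls O t i ∧ p e < j}) ∪
          {e | e ∈ cls O t (i + 1) ∧ p e < j} := by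
        ext e
        simp only [win, mem_union, mem_ofPred_eq, mem_sdiff, not_and, not_lt]
        constructor
        · rintro (⟨he, hlt'⟩ | ⟨⟨he, hte⟩, hlt'⟩)
          · refine Or.inl ⟨he, fun h => ?_⟩
            rwa [hoO e h.1] at hlt'
          · by_cases heO : e ∈ O
            · rw [hoO e heO] at hlt'; exact Or.inr ⟨⟨heO, hte⟩, hlt'⟩
            · rw [hoR e heO] at hlt'; omega
        · rintro (⟨he, hlt'⟩ | ⟨⟨he, hte⟩, hlt'⟩)
          · refine Or.inl ⟨he, ?_⟩
            by_cases heO : e ∈ O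
            · rw [hoO e heO]; exact hlt' ⟨heO, he.2⟩
            · rw [hoR e heO]; omega
          · exact Or.inr ⟨⟨hOA he, hte⟩, by rw [hoO e he]; exact hlt'⟩
      rw [this]; exact hw
  · intro j hj
    have hgr : winp A t o (-1) j ⊆ (N (-1)).E :=
      (winp_sub _ _ _ _ _).trans (union_subset (h1 _).subset_ground (h2 _).subset_ground)
    rcases Nat.lt_or_ge j d with hdj | hdj
    · have hw := hexch (-1) {e | e ∈ cls O t (-1) ∧ p e < j} (fun e he => he.1)
      refine hw.spanning.superset ?_ hgr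
      rintro e (⟨he, hlt'⟩ | he)
      · left
        refine ⟨he, ?_⟩
        by_cases heO : e ∈ O
        · rw [hoO e heO]
          by_contra hh
          exact hlt' ⟨⟨heO, he.2⟩, by omega⟩
        · rw [hoR e heO]; omega
      · right
        obtain ⟨⟨heO, hte⟩, hle⟩ := hs2 j he
        refine ⟨⟨hOA heO, by rw [hte]; ring⟩, ?_⟩
        rw [hoO e heO]; exact hle
    · have hw := hl' (j - d) (by omega)
      rw [contract_spanning_iff (hOind (-1)).subset_ground] at hw
      refine hw.1.superset ?_ hgr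
      rintro e ((⟨⟨he, hte⟩, hlt'⟩ | ⟨⟨he, hte⟩, hlt'⟩) | ⟨he, hte⟩)
      · exact Or.inl ⟨⟨he.1, hte⟩, by rw [hoR e he.2]; omega⟩
      · exact Or.inr ⟨⟨he.1, hte⟩, by rw [hoR e he.2]; omega⟩
      · exact Or.inr ⟨⟨hOA he, hte⟩, by rw [hoO e he]; have := hpd e he; omega⟩

end Pool.Agent.ECO
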