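import Pool.Agent.helper58.ECO.C

set_option autoImplicit false

namespace Pool.Agent.ECO

open Set Function Matroid

variable {E : Type*} {K : ℕ} [NeZero K]

/-- The part of `A` of colour `i`. -/
def cls (A : Set E) (t : E → ZMod K) (i : ZMod K) : Set E := {e | e ∈ A ∧ t e = i}

omit [NeZero K] in
theorem cls_sub (A : Set E) (t : E → ZMod K) (i : ZMod K) : cls A t i ⊆ A := fun _ h => h.1

/-- Orbit data: a set `O ⊆ A` closed under a colour shifting map, with positions. -/
theorem orbit (A : Set E) (t : E → ZMod K) (φ : E → E) (hAf : A.Finite) (hne : A.Nonempty)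
    (hφA : ∀ e ∈ A, φ e ∈ A) (hφt : ∀ e ∈ A, t (φ e) = t e + 1) :
    ∃ (O : Set E) (p : E → ℕ) (d : ℕ), O.Nonempty ∧ O ⊆ A ∧ InjOn φ O ∧
      (∀ i, BijOn p (cls O t i) (Iio d)) ∧
      (∀ i : ZMod K, i ≠ -1 → ∀ j, φ '' {e | e ∈ cls O t i ∧ p e < j} =
        {e | e ∈ cls O t (i + 1) ∧ p e < j}) ∧
      (∀ j, φ '' {e | e ∈ cls O t (-1) ∧ p e < j} ⊆ {e | e ∈ cls O t 0 ∧ p e ≤ j}) ∧
      (∀ i, φ '' cls O t i = cls O t (i + 1)) := by
  have hK : 0 < K := Nat.pos_of_ne_zero (NeZero.ne K)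
  obtain ⟨a, ha⟩ := hne
  have hiter : ∀ n, ∀ e ∈ A, φ^[n] e ∈ A := by
    intro n
    induction n with
    | zero => intro e he; simpa using he
    | succ n ih => intro e he; rw [Function.iterate_succ_apply']; exact hφA _ (ih e he)
  have hitert : ∀ n, ∀ e ∈ A, t (φ^[n] e) = t e + n := by
    intro n
    induction n with
    | zero => intro e he; simp
    | succ n ih => intro e he; rw [Function.iterate_succ_apply', hφt _ (hiter n e he), ih e he]; push_cast; ring
  -- a periodic point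
  obtain ⟨c0, hc0A, hc0p⟩ : ∃ c ∈ A, c ∈ periodicPts φ := by
    have hmaps : MapsTo (fun n : ℕ => φ^[n] a) univ A := fun n _ => hiter n a ha
    obtain ⟨x, -, y, -, hxy, heq⟩ := Set.infinite_univ.exists_ne_map_eq_of_mapsTo hmaps hAf
    rcases lt_or_gt_of_ne hxy with h | h
    · refine ⟨φ^[x] a, hiter x a ha, mk_mem_periodicPts (n := y - x) (by omega) ?_⟩
      change φ^[y - x] (φ^[x] a) = φ^[x] a
      rw [← Function.iterate_add_apply, Nat.sub_add_cancel h.le]
      exact heq.symm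
    · refine ⟨φ^[y] a, hiter y a ha, mk_mem_periodicPts (n := x - y) (by omega) ?_⟩
      change φ^[x - y] (φ^[y] a) = φ^[y] a
      rw [← Function.iterate_add_apply, Nat.sub_add_cancel h.le]
      exact heq
  -- move to colour 0
  obtain ⟨c, hcA, hcp, hct⟩ : ∃ c ∈ A, c ∈ periodicPts φ ∧ t c = 0 := by
    refine ⟨φ^[(-(t c0)).val] c0, hiter _ _ hc0A, ?_, ?_⟩
    · exact (bijOn_periodicPts φ).mapsTo.iterate _ hc0p
    · rw [hitert _ _ hc0A, ZMod.natCast_val, ZMod.cast_id', id]; ring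
  set P := minimalPeriod φ c with hP
  have hPpos : 0 < P := minimalPeriod_pos_of_mem_periodicPts hcp
  have hPc : φ^[P] c = c := isPeriodicPt_minimalPeriod φ c
  obtain ⟨d, hd⟩ : K ∣ P := by
    rw [← ZMod.natCast_eq_zero_iff]
    have := hitert P c hcA
    rw [hPc, hct] at this
    simpa using this.symm
  have hinj : InjOn (fun j => φ^[j] c) (Iio P) := by
    intro x hx y hy hxy
    exact (iterate_injOn_Iio_minimalPeriod (f := φ) (x := c)) hx hy hxy
  set O : Set E := (fun j => φ^[j] c) '' Iio P with hO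
  obtain ⟨idx, hidx⟩ : ∃ idx : E → ℕ, ∀ j < P, idx (φ^[j] c) = j := by
    refine ⟨invFunOn (fun j => φ^[j] c) (Iio P), fun j hj => ?_⟩
    exact hinj (invFunOn_mem ⟨j, hj, rfl⟩) hj (invFunOn_eq (f := fun j => φ^[j] c) ⟨j, hj, rfl⟩)
  have hcol : ∀ j, t (φ^[j] c) = (j : ZMod K) := fun j => by rw [hitert j c hcA, hct, zero_add]
  have hOe : ∀ e ∈ O, idx e < P ∧ φ^[idx e] c = e ∧ t e = (idx e : ZMod K) := by
    rintro _ ⟨j, hj, rfl⟩
    change idx (φ^[j] c) < P ∧ φ^[idx (φ^[j] c)] c = φ^[j] c ∧ t (φ^[j] c) = _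
    rw [hidx j hj]
    exact ⟨hj, rfl, hcol j⟩
  have hOmem : ∀ j < P, φ^[j] c ∈ O := fun j hj => ⟨j, hj, rfl⟩
  have hstep : ∀ e ∈ O, φ e ∈ O ∧ (idx e + 1 < P → idx (φ e) = idx e + 1) ∧
      (idx e + 1 = P → idx (φ e) = 0) := by
    intro e he
    obtain ⟨h1, h2, h3⟩ := hOe e he
    have h4 : φ e = φ^[idx e + 1] c := by rw [Function.iterate_succ_apply', h2]
    rcases Nat.lt_or_ge (idx e + 1) P with h | h
    · refine ⟨by rw [h4]; exact hOmem _ h, fun _ => by rw [h4]; exact hidx _ h, fun hh => by omega⟩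
    · have h5 : idx e + 1 = P := by omega
      have h6 : φ e = c := by rw [h4, h5, hPc]
      have h7 : idx c = 0 := hidx 0 hPpos
      exact ⟨by rw [h6]; exact hOmem 0 hPpos, fun hh => by omega, fun _ => by rw [h6, h7]⟩
  have hOA : O ⊆ A := by rintro _ ⟨j, _, rfl⟩; exact hiter j c hcA
  have hOper : O ⊆ periodicPts φ := by
    rintro _ ⟨j, _, rfl⟩
    exact (bijOn_periodicPts φ).mapsTo.iterate j hcp
  -- arithmetic
  have hmodeq : ∀ x y : ℕ, (x : ZMod K) = (y : ZMod K) → x % K = y % K := by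
    intro x y hxy
    exact (ZMod.natCast_eq_natCast_iff' x y K).1 hxy
  have hdivmod : ∀ x y : ℕ, (x : ZMod K) = (y : ZMod K) → x / K = y / K → x = y := by
    intro x y h1 h2
    rw [← Nat.div_add_mod x K, ← Nat.div_add_mod y K, h2, hmodeq x y h1]
  have hnext : ∀ x : ℕ, ((x + 1 : ℕ) : ZMod K) ≠ 0 → (x + 1) / K = x / K := by
    intro x hx
    have h1 : ¬ K ∣ (x + 1) := fun h => hx ((ZMod.natCast_eq_zero_iff _ _).2 h)
    exact Nat.succ_div_of_not_dvd h1
  have hPne : ∀ x : ℕ, ((x + 1 : ℕ) : ZMod K) ≠ 0 → x < P → x + 1 < P := by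
    intro x hx hlt
    rcases Nat.lt_or_ge (x + 1) P with h | h
    · exact h
    · exfalso
      have : x + 1 = P := by omega
      apply hx
      rw [this, hd, Nat.cast_mul, ZMod.natCast_self, zero_mul]
  refine ⟨O, fun e => idx e / K, d, ⟨c, hOmem 0 hPpos⟩, hOA, ?_, ?_, ?_, ?_, ?_⟩
  · exact (bijOn_periodicPts φ).injOn.mono hOper
  · intro i
    refine ⟨?_, ?_, ?_⟩
    · rintro e ⟨he, -⟩
      obtain ⟨h1, -, -⟩ := hOe e he
      rw [hd] at h1
      exact Nat.div_lt_of_lt_mul h1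
    · rintro e ⟨he, hte⟩ e' ⟨he', hte'⟩ hdiv
      obtain ⟨-, h2, h3⟩ := hOe e he
      obtain ⟨-, h2', h3'⟩ := hOe e' he'
      have : idx e = idx e' := hdivmod _ _ (by rw [← h3, ← h3', hte, hte']) hdiv
      rw [← h2, ← h2', this]
    · intro q hq
      have hlt : K * q + i.val < P := by
        rw [hd]
        have h1 := ZMod.val_lt i
        have h2 : q + 1 ≤ d := hq
        calc K * q + i.val < K * q + K := by omega
          _ = K * (q + 1) := by ring
          _ ≤ K * d := Nat.mul_le_mul_left K h2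
      refine ⟨φ^[K * q + i.val] c, ⟨hOmem _ hlt, ?_⟩, ?_⟩
      · rw [hcol]; push_cast; rw [ZMod.natCast_self, zero_mul, zero_add, ZMod.natCast_val, ZMod.cast_id', id]
      · change idx (φ^[K * q + i.val] c) / K = q
        rw [hidx _ hlt, Nat.mul_add_div hK, Nat.div_eq_of_lt (ZMod.val_lt i), add_zero]
  · intro i hi j
    ext e'
    constructor
    · rintro ⟨e, ⟨⟨he, hte⟩, hlt⟩, rfl⟩
      obtain ⟨h1, h2, h3⟩ := hOe e he
      obtain ⟨g1, g2, g3⟩ := hstep e he
      have hnz : ((idx e + 1 : ℕ) : ZMod K) ≠ 0 := by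
        push_cast; rw [← h3, hte]
        intro h; apply hi; exact eq_neg_of_add_eq_zero_left h
      have h5 := hPne _ hnz h1
      refine ⟨⟨g1, by rw [hφt e (hOA he), hte]⟩, ?_⟩
      change idx (φ e) / K < j
      rw [g2 h5, hnext _ hnz]; exact hlt
    · rintro ⟨⟨he', hte'⟩, hlt⟩
      obtain ⟨h1, h2, h3⟩ := hOe e' he'
      have hnz : (idx e' : ZMod K) ≠ 0 := by
        rw [← h3, hte']
        intro h; apply hi; exact eq_neg_of_add_eq_zero_left h
      have hpos : idx e' ≠ 0 := fun h => hnz (by rw [h]; simp)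
      obtain ⟨k, hk⟩ := Nat.exists_eq_succ_of_ne_zero hpos
      have hkP : k < P := by omega
      have hke : φ (φ^[k] c) = e' := by
        rw [← Function.iterate_succ_apply' φ k c, ← hk, h2]
      refine ⟨φ^[k] c, ⟨⟨hOmem k hkP, ?_⟩, ?_⟩, hke⟩
      · rw [hcol]
        have : (idx e' : ZMod K) = i + 1 := by rw [← h3, hte']
        rw [hk] at this; push_cast at this
        exact add_right_cancel this
      · change idx (φ^[k] c) / K < j
        rw [hidx k hkP]
        have hk2 : (k + 1) / K = k / K := hnext k (by rw [← Nat.succ_eq_add_one, ← hk]; exact hnz)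
        change idx e' / K < j at hlt
        rw [hk, Nat.succ_eq_add_one, hk2] at hlt
        exact hlt
  · intro j
    rintro _ ⟨e, ⟨⟨he, hte⟩, hlt⟩, rfl⟩
    obtain ⟨h1, h2, h3⟩ := hOe e he
    obtain ⟨g1, g2, g3⟩ := hstep e he
    refine ⟨⟨g1, by rw [hφt e (hOA he), hte]; ring⟩, ?_⟩
    change idx (φ e) / K ≤ j
    change idx e / K < j at hlt
    rcases Nat.lt_or_ge (idx e + 1) P with h | h
    · rw [g2 h]
      have : (idx e + 1) / K ≤ idx e / K + 1 := by
        rw [← Nat.add_div_right _ hK]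
        exact Nat.div_le_div_right (by omega)
      omega
    · rw [g3 (by omega)]; simp
  · intro i
    ext e'
    constructor
    · rintro ⟨e, ⟨he, hte⟩, rfl⟩
      exact ⟨(hstep e he).1, by rw [hφt e (hOA he), hte]⟩
    · rintro ⟨he', hte'⟩
      obtain ⟨h1, h2, h3⟩ := hOe e' he'
      have key : ∃ e ∈ O, φ e = e' := by
        rcases Nat.eq_zero_or_pos (idx e') with h | h
        · refine ⟨φ^[P - 1] c, hOmem _ (by omega), ?_⟩
          rw [← Function.iterate_succ_apply' φ (P - 1) c, show (P - 1).succ = P by omega, hPc, ← h2, h]; rfl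
        · refine ⟨φ^[idx e' - 1] c, hOmem _ (by omega), ?_⟩
          rw [← Function.iterate_succ_apply' φ (idx e' - 1) c, show (idx e' - 1).succ = idx e' by omega, h2]
      obtain ⟨e, he, hee⟩ := key
      refine ⟨e, ⟨he, ?_⟩, hee⟩
      have := hφt e (hOA he)
      rw [hee, hte'] at this
      exact (add_right_cancel this).symm

end Pool.Agent.ECO
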